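import Mathlib

/-! The five-qubit code has distance `3` and all its nonzero elements have weight `4`, so every
linear automorphism is a weight-preserving isometry; most of them are not monomial. -/

namespace Pool.Agent.Results.MP_711a76_lc.FiveQubit

/-- `A_q ^ n`. -/
abbrev Vec (q n : ℕ) := Fin n → ZMod q × ZMod q

variable {q n : ℕ}

def form (u v : Vec q n) : ZMod q := ∑ i, ((u i).1 * (v i).2 - (v i).1 * (u i).2)

def wt (u : Vec q n) : ℕ := (Finset.univ.filter fun i => u i ≠ 0).card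

/-- Linear codes in `A_q ^ n`. -/
def Code (q n : ℕ) : Type := Submodule (ZMod q) (Vec q n)

/-- The codewords. -/
def Code.set (C : Code q n) : Set (Vec q n) := (show Submodule (ZMod q) (Vec q n) from C).carrier

/-- The symplectic dual. -/
def perp (C : Code q n) : Set (Vec q n) := {u | ∀ c ∈ C.set, form u c = 0}

def IsStab (C : Code q n) : Prop := C.set ⊆ perp C

/-- `d(C) > 2`. -/
def DistGt2 (C : Code q n) : Prop :=
  (C.set ≠ perp C → ∀ u ∈ perp C, u ∉ C.set → 2 < wt u) ∧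
  (C.set = perp C → ∀ u ∈ C.set, u ≠ 0 → 2 < wt u)

def Additive (C : Code q n) (f : Vec q n → Vec q n) : Prop :=
  ∀ u ∈ C.set, ∀ v ∈ C.set, f (u + v) = f u + f v

def Homog (C : Code q n) (f : Vec q n → Vec q n) : Prop :=
  ∀ (a : ZMod q), ∀ u ∈ C.set, f (a • u) = a • f u

/-- `f` restricts to a weight-preserving linear bijection `C → D`. -/
def IsIsom (C D : Code q n) (f : Vec q n → Vec q n) : Prop :=
  Set.BijOn f C.set D.set ∧ Additive C f ∧ Homog C f ∧ ∀ u ∈ C.set, wt (f u) = wt u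

/-- `GL(2, q)`. -/
def GL2 (q : ℕ) : Type := (ZMod q × ZMod q) ≃ₗ[ZMod q] (ZMod q × ZMod q)

def GL2.act (g : GL2 q) (a : ZMod q × ZMod q) : ZMod q × ZMod q :=
  (show (ZMod q × ZMod q) ≃ₗ[ZMod q] (ZMod q × ZMod q) from g).toFun a

/-- On `C`, `f` agrees with a monomial transformation. -/
def Extends (C : Code q n) (f : Vec q n → Vec q n) : Prop :=
  ∃ (π : Equiv.Perm (Fin n)) (g : Fin n → GL2 q), ∀ c ∈ C.set, ∀ i,
    f c i = (g i).act (c (π.symm i))

/-- Generators `XZZXI, IXZZX, XIXZZ, ZXIXZ`. -/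
def enc (x : Fin 4 → ZMod 2) : Vec 2 5 :=
  ![(x 0 + x 2, x 3), (x 1 + x 3, x 0), (x 2, x 0 + x 1), (x 0 + x 3, x 1 + x 2),
    (x 1, x 2 + x 3)]

def encL : (Fin 4 → ZMod 2) →ₗ[ZMod 2] Vec 2 5 where
  toFun := enc
  map_add' x y := by
    funext i; fin_cases i <;> simp [enc] <;> (try constructor) <;> ring
  map_smul' a x := by
    funext i; fin_cases i <;> simp [enc] <;> (try constructor) <;> ring

def C5 : Code 2 5 := LinearMap.range encL

def F (u : Vec 2 5) : Vec 2 5 := enc ![(u 1).2, (u 0).2, (u 2).1, (u 4).1]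

theorem result : ∃ (q n : ℕ) (C D : Code q n) (f : Vec q n → Vec q n),
    q.Prime ∧ IsStab C ∧ IsStab D ∧ DistGt2 C ∧ DistGt2 D ∧ IsIsom C D f ∧ ¬ Extends C f := by
  have hs : IsStab C5 := by
    rintro _ ⟨x, rfl⟩ _ ⟨y, rfl⟩
    have : ∀ x y : Fin 4 → ZMod 2, form (enc x) (enc y) = 0 := by decide +kernel
    exact this x y
  have hd : DistGt2 C5 := by
    constructor
    · intro _ u hu hn
      have : ∀ u : Vec 2 5, (∀ x, form u (enc x) = 0) → (∃ x, enc x = u) ∨ 2 < wt u := by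
        decide +kernel
      exact (this u fun x => hu _ ⟨x, rfl⟩).resolve_left hn
    · rintro - _ ⟨x, rfl⟩ hx
      have : ∀ x : Fin 4 → ZMod 2, enc x ≠ 0 → 2 < wt (enc x) := by decide +kernel
      exact this x hx
  have hF : ∀ x : Fin 4 → ZMod 2, F (F (enc x)) = enc x := by decide +kernel
  refine ⟨2, 5, C5, C5, F, Nat.prime_two, hs, hs, hd, hd, ⟨⟨?_, ?_, ?_⟩, ?_, ?_, ?_⟩, ?_⟩
  · exact fun u _ => ⟨_, rfl⟩
  · rintro _ ⟨x, rfl⟩ _ ⟨y, rfl⟩ h
    exact (hF x).symm.trans ((congrArg F h).trans (hF y))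
  · rintro _ ⟨x, rfl⟩
    exact ⟨F (enc x), ⟨_, rfl⟩, hF x⟩
  · rintro _ ⟨x, rfl⟩ _ ⟨y, rfl⟩
    have : ∀ x y : Fin 4 → ZMod 2, F (enc x + enc y) = F (enc x) + F (enc y) := by
      decide +kernel
    exact this x y
  · rintro a _ ⟨x, rfl⟩
    have : ∀ (a : ZMod 2) (x : Fin 4 → ZMod 2), F (a • enc x) = a • F (enc x) := by
      decide +kernel
    exact this a x
  · rintro _ ⟨x, rfl⟩
    have : ∀ x : Fin 4 → ZMod 2, wt (F (enc x)) = wt (enc x) := by decide +kernel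
    exact this x
  · rintro ⟨π, g, h⟩
    have h1 := h (enc ![1, 0, 0, 0]) ⟨_, rfl⟩ (π 4)
    have h2 := h (enc ![0, 0, 1, 1]) ⟨_, rfl⟩ (π 4)
    rw [Equiv.symm_apply_apply] at h1 h2
    have e1 : enc ![1, 0, 0, 0] 4 = 0 := by decide
    have e2 : enc ![0, 0, 1, 1] 4 = 0 := by decide
    have e3 : (g (π 4)).act 0 = 0 :=
      map_zero (show (ZMod 2 × ZMod 2) ≃ₗ[ZMod 2] (ZMod 2 × ZMod 2) from g (π 4))
    rw [e1, e3] at h1
    rw [e2, e3] at h2
    have : ∀ i : Fin 5, ¬ (F (enc ![1, 0, 0, 0]) i = 0 ∧ F (enc ![0, 0, 1, 1]) i = 0) := by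
      decide
    exact this _ ⟨h1, h2⟩

end Pool.Agent.Results.MP_711a76_lc.FiveQubit
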